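import Pool.Agent.H30.GMC.StT

/-!
Project GMC, module HARA: a noetherian normal domain is the intersection of its localisations at
the prime ideals of height one.
-/

open AlgebraicGeometry CategoryTheory FCB MvPolynomial

namespace GMC

namespace HARA

variable {R : Type} [CommRing R]

/-- The ideal of all `x` with `b ∣ x * a`. -/
def col (b a : R) : Ideal R where
  carrier := {x | b ∣ x * a}
  add_mem' := by
    intro x y hx hy
    change b ∣ (x + y) * a
    rw [add_mul]
    exact dvd_add hx hy
  zero_mem' := by
    change b ∣ 0 * a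
    rw [zero_mul]
    exact dvd_zero b
  smul_mem' := by
    intro c x hx
    change b ∣ c • x * a
    rw [smul_eq_mul, mul_assoc]
    exact Dvd.dvd.mul_left hx c

theorem mem_col {b a x : R} : x ∈ col b a ↔ b ∣ x * a := Iff.rfl

theorem exists_prime [IsNoetherianRing R] (a b : R) (h : ¬ b ∣ a) :
    ∃ e : R, ¬ b ∣ e * a ∧ (col b (e * a)).IsPrime := by
  have hne : (Set.Nonempty {I : Ideal R | ∃ e : R, ¬ b ∣ e * a ∧ I = col b (e * a)}) :=
    ⟨col b (1 * a), 1, by rwa [one_mul], rfl⟩
  obtain ⟨P, ⟨e, he, rfl⟩, hmax⟩ := set_has_maximal_iff_noetherian.2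
    (inferInstance : IsNoetherian R R) _ hne
  refine ⟨e, he, ?_, ?_⟩
  · intro htop
    have h1 : (1 : R) ∈ col b (e * a) := by
      rw [htop]
      trivial
    rw [mem_col, one_mul] at h1
    exact he h1
  · intro x y hxy
    by_contra hcon
    rw [not_or] at hcon
    obtain ⟨hx, hy⟩ := hcon
    have hx' : ¬ b ∣ (x * e) * a := by
      intro h1
      apply hx
      rw [mem_col]
      have h2 : x * (e * a) = (x * e) * a := by ring
      rw [h2]
      exact h1
    have hle : col b (e * a) ≤ col b ((x * e) * a) := by
      intro z hz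
      rw [mem_col] at hz ⊢
      have h2 : z * ((x * e) * a) = x * (z * (e * a)) := by ring
      rw [h2]
      exact Dvd.dvd.mul_left hz x
    have hy' : y ∈ col b ((x * e) * a) := by
      rw [mem_col] at hxy ⊢
      have h2 : y * ((x * e) * a) = x * y * (e * a) := by ring
      rw [h2]
      exact hxy
    refine hmax _ ⟨x * e, hx', rfl⟩ (lt_of_le_of_ne hle ?_)
    intro heq
    apply hy
    rw [heq]
    exact hy'

end HARA

open HARA in
/-- HARA -/
theorem hara_thm : S_HARA := by
  intro R _ _ _ _ a b hb hP
  by_contra hdvd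
  obtain ⟨e, he, hprime⟩ := exists_prime a b hdvd
  have hbP : b ∈ col b (e * a) := by
    rw [mem_col]
    exact Dvd.intro _ rfl
  have ha0 : e * a ≠ 0 := by
    intro h
    apply he
    rw [h]
    exact dvd_zero b
  by_cases hcase : ∃ x ∈ col b (e * a), ∃ u, x * (e * a) = b * u ∧ u ∉ col b (e * a)
  · obtain ⟨x, hx, u, hu, huP⟩ := hcase
    have hkey : ∀ y ∈ col b (e * a), ∃ v, u * y = x * v := by
      intro y hy
      obtain ⟨v, hv⟩ := mem_col.1 hy
      refine ⟨v, mul_right_cancel₀ ha0 ?_⟩
      calc u * y * (e * a) = u * (y * (e * a)) := by ring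
        _ = u * (b * v) := by rw [hv]
        _ = (b * u) * v := by ring
        _ = (x * (e * a)) * v := by rw [hu]
        _ = x * v * (e * a) := by ring
    have hmin : col b (e * a) ∈ (Ideal.span {x}).minimalPrimes := by
      refine ⟨⟨hprime, ?_⟩, ?_⟩
      · rw [Ideal.span_singleton_le_iff_mem]
        exact hx
      · rintro Q ⟨hQ, hxQ⟩ hQP y hy
        rw [Ideal.span_singleton_le_iff_mem] at hxQ
        obtain ⟨v, hv⟩ := hkey y hy
        have h1 : u * y ∈ Q := by
          rw [hv]
          exact Q.mul_mem_right v hxQ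
        rcases hQ.mem_or_mem h1 with h2 | h2
        · exact absurd (hQP h2) huP
        · exact h2
    have hle : (col b (e * a)).height ≤ 1 :=
      Ideal.height_le_one_of_isPrincipal_of_mem_minimalPrimes (Ideal.span {x}) _ hmin
    have hge : (col b (e * a)).height ≠ 0 := by
      intro h0
      rw [Ideal.height_eq_zero_iff_eq_bot] at h0
      rw [h0, Ideal.mem_bot] at hbP
      exact hb hbP
    have h1 : (col b (e * a)).height = 1 :=
      le_antisymm hle (Order.one_le_iff_ne_zero.2 hge)
    obtain ⟨c, d, hd, hcd⟩ := hP _ hprime h1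
    apply hd
    rw [mem_col]
    refine ⟨e * c, ?_⟩
    calc d * (e * a) = e * (a * d) := by ring
      _ = e * (b * c) := by rw [hcd]
      _ = b * (e * c) := by ring
  · push Not at hcase
    apply he
    have hinj : Function.Injective (algebraMap R (FractionRing R)) := IsFractionRing.injective R _
    have hb0 : algebraMap R (FractionRing R) b ≠ 0 := by
      intro h
      exact hb (hinj (h.trans (map_zero _).symm))
    have hint : IsIntegral R (algebraMap R (FractionRing R) (e * a) /
        algebraMap R (FractionRing R) b) := by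
      refine isIntegral_of_smul_mem_submodule
        (Submodule.map (Algebra.linearMap R (FractionRing R)) (col b (e * a))) ?_ ?_ _ ?_
      · rw [Submodule.ne_bot_iff]
        exact ⟨_, ⟨b, hbP, rfl⟩, hb0⟩
      · apply Submodule.FG.map
        exact IsNoetherian.noetherian _
      · rintro _ ⟨x, hx, rfl⟩
        obtain ⟨v, hv⟩ := mem_col.1 hx
        refine ⟨v, hcase x hx v hv, ?_⟩
        rw [Algebra.linearMap_apply, Algebra.linearMap_apply, smul_eq_mul]
        field_simp
        rw [← map_mul, ← map_mul, mul_comm v b, ← hv, mul_comm x]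
    obtain ⟨y, hy⟩ := IsIntegrallyClosed.algebraMap_eq_of_integral hint
    refine ⟨y, hinj ?_⟩
    rw [map_mul _ b y, hy, mul_div_cancel₀ _ hb0]

end GMC
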