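import Pool.Agent.H30.GMC.StT

/-!
Project GMC, module ORDV: the order at a prime divisor with integrally closed local ring is a
discrete valuation.
-/

open AlgebraicGeometry CategoryTheory FCB MvPolynomial

set_option linter.style.haveILetI false

namespace GMC

/-- ORDV -/
theorem ordv_thm : S_ORDV := by
  intro X _ _ p hn
  have hd : ringKrullDim (X.presheaf.stalk p.1) = 1 := by
    rw [ringKrullDim_stalk_eq_coheight, p.2]; rfl
  have hnf : ¬ IsField (X.presheaf.stalk p.1) := by
    intro h
    rw [ringKrullDim_eq_zero_of_isField h] at hd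
    exact zero_ne_one hd
  haveI : IsNoetherianRing (X.presheaf.stalk p.1) := inferInstance
  haveI hk1 : Ring.KrullDimLE 1 (X.presheaf.stalk p.1) := krullDimLE_of_coheight_le p.2.le
  haveI hdim : Ring.DimensionLEOne (X.presheaf.stalk p.1) := by
    refine ⟨fun {q} hq hqp => ?_⟩
    rcases Ring.krullDimLE_one_iff.1 hk1 q hqp with h | h
    · exfalso
      apply hq
      rw [IsDomain.minimalPrimes_eq_singleton_bot] at h
      exact h
    · exact h
  haveI hded : IsDedekindDomain (X.presheaf.stalk p.1) := { __ := hdim }
  haveI hdvr : IsDiscreteValuationRing (X.presheaf.stalk p.1) := by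
    have h3 := (IsDiscreteValuationRing.TFAE (X.presheaf.stalk p.1) hnf).out 0 2
    exact h3.2 hded
  have hv : ∀ f : X.functionField, Scheme.ordHom p.1 p.2 f =
      ((IsDiscreteValuationRing.maximalIdeal (X.presheaf.stalk p.1)).valuation
        X.functionField f)⁻¹ := fun f => Ring.ordFrac_eq_valuation_inv f
  have h0 : ∀ f : X.functionField, f ≠ 0 →
      ((IsDiscreteValuationRing.maximalIdeal (X.presheaf.stalk p.1)).valuation
        X.functionField f) ≠ 0 := fun f hf => (map_ne_zero _).2 hf
  refine ⟨fun f hf => ?_, fun f hf => ?_, ?_⟩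
  · rw [Scheme.le_ord_iff p.2 hf, hv]
    constructor
    · rintro ⟨s, rfl⟩
      have h1 := (IsDiscreteValuationRing.maximalIdeal
        (X.presheaf.stalk p.1)).valuation_le_one (K := X.functionField) s
      exact (one_le_inv₀ (zero_lt_iff.2 (h0 _ hf))).2 h1
    · intro h
      have h1 := (one_le_inv₀ (zero_lt_iff.2 (h0 _ hf))).1 h
      exact IsDiscreteValuationRing.exists_lift_of_le_one h1
  · rw [Scheme.ord_eq_iff p.2 hf]
    constructor
    · rintro ⟨s, hs, rfl⟩
      exact Ring.ordFrac_of_isUnit hs
    · intro h
      have h1 : ((IsDiscreteValuationRing.maximalIdeal (X.presheaf.stalk p.1)).valuation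
        X.functionField f) ≤ 1 := by
        rw [hv] at h
        have h2 : ((IsDiscreteValuationRing.maximalIdeal (X.presheaf.stalk p.1)).valuation
          X.functionField f) = 1 := inv_eq_one.1 h
        exact h2.le
      obtain ⟨s, rfl⟩ := IsDiscreteValuationRing.exists_lift_of_le_one h1
      refine ⟨s, ?_, rfl⟩
      exact (Ring.isUnit_iff_ordFrac_one_of_isDiscreteValuationRing
        (K := X.functionField)).2 h
  · obtain ⟨ϖ, hirr⟩ := IsDiscreteValuationRing.exists_irreducible (X.presheaf.stalk p.1)
    have hne : algebraMap (X.presheaf.stalk p.1) X.functionField ϖ ≠ 0 := by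
      intro h
      exact hirr.ne_zero (IsFractionRing.injective (X.presheaf.stalk p.1) X.functionField
        (h.trans (map_zero _).symm))
    refine ⟨algebraMap _ _ ϖ, hne, ?_⟩
    rw [Scheme.ord_eq_iff p.2 hne]
    exact Ring.ordFrac_irreducible hirr

end GMC
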